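import Pool.Agent.H59W.Base

set_option autoImplicit false

namespace Pool.Agent.H59W

open Pool.Agent.V1137.Welsh

/-- Base lists of simple paving matroids. -/
def part1 : List (List ℕ) := [
  [19, 21, 22, 25, 26, 28, 35, 37, 38, 41, 42, 44, 50, 52, 56, 67, 69, 70, 73, 74, 76, 82, 84,
   88, 98, 100, 104],
  [11, 13, 14, 19, 21, 22, 26, 28, 35, 37, 38, 41, 44, 49, 50, 52, 56, 67, 69, 70, 73, 74, 76,
   81, 82, 84, 88, 97, 98, 100, 104, 112],
  [11, 13, 14, 19, 21, 22, 26, 28, 35, 37, 38, 41, 42, 44, 49, 50, 52, 56, 67, 69, 70, 73, 74,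
   76, 81, 82, 84, 88, 98, 100, 104, 112],
  [11, 13, 14, 19, 21, 22, 26, 28, 35, 37, 38, 41, 42, 44, 49, 50, 52, 56, 67, 69, 70, 73, 74,
   76, 81, 82, 84, 88, 97, 100, 104, 112],
  [11, 13, 14, 19, 21, 22, 26, 28, 35, 37, 38, 41, 44, 49, 50, 52, 56, 67, 69, 70, 73, 76, 81,
   82, 84, 88, 97, 100, 112],
  [11, 13, 14, 19, 21, 22, 26, 28, 35, 37, 38, 41, 44, 49, 50, 56, 67, 69, 70, 73, 74, 76, 81,
   82, 84, 88, 97, 98, 100, 104, 112],
  [11, 13, 14, 19, 21, 22, 26, 28, 35, 37, 38, 41, 44, 49, 50, 52, 56, 67, 69, 70, 73, 74, 81,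
   82, 84, 88, 97, 98, 100, 104, 112],
  [11, 13, 14, 19, 21, 22, 26, 28, 35, 37, 38, 41, 44, 49, 50, 52, 56, 67, 69, 70, 73, 74, 76,
   81, 82, 88, 97, 98, 100, 104, 112],
  [11, 13, 14, 19, 21, 22, 26, 28, 35, 37, 38, 41, 44, 49, 50, 56, 67, 69, 70, 73, 74, 76, 81,
   82, 88, 97, 98, 104],
  [11, 13, 14, 19, 21, 22, 26, 28, 35, 37, 38, 41, 44, 49, 50, 56, 67, 69, 70, 73, 74, 81, 82,
   84, 88, 97, 98, 100, 104, 112],
  [11, 13, 14, 19, 21, 22, 26, 28, 35, 37, 38, 41, 44, 49, 50, 52, 56, 67, 69, 70, 73, 74, 81,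
   82, 84, 88, 97, 98, 100, 104],
  [11, 13, 14, 19, 21, 22, 26, 28, 35, 37, 38, 41, 44, 49, 50, 56, 67, 69, 70, 73, 74, 81, 84,
   88, 97, 98, 100, 104, 112],
  [11, 13, 14, 19, 21, 22, 26, 28, 35, 37, 38, 41, 44, 49, 50, 56, 67, 69, 70, 73, 74, 81, 84,
   88, 98, 100, 104, 112]]

/-- Values of the invariant. -/
def val1 : List ℕ := [45250, 62431, 62425, 62305, 51904, 58648, 58642, 58522, 48355, 54979, 54859, 51436, 48013]

theorem part1_ok : (part1.all fun B => OKp B) = true := by decide +kernel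

theorem part1_val : part1.map invm3 = val1 := by decide +kernel

end Pool.Agent.H59W
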