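import Pool.Agent.H59W.Base

set_option autoImplicit false

namespace Pool.Agent.H59W

open Pool.Agent.V1137.Welsh

/-- Base lists of simple paving matroids. -/
def part3 : List (List ℕ) := [
  [23, 27, 29, 30, 39, 43, 45, 46, 53, 54, 57, 58, 60, 71, 75, 77, 78, 83, 85, 86, 89, 90, 99,
   101, 102, 105, 106, 108, 113, 114, 116, 120],
  [23, 27, 29, 30, 39, 43, 45, 46, 53, 54, 57, 58, 71, 75, 77, 78, 83, 85, 86, 89, 90, 99, 101,
   102, 105, 106, 113, 114],
  [23, 27, 29, 30, 39, 43, 45, 46, 53, 54, 57, 58, 71, 75, 77, 78, 83, 86, 89, 90, 92, 99, 101,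
   102, 105, 106, 108, 113, 114, 116, 120],
  [23, 27, 29, 30, 39, 43, 45, 46, 53, 54, 57, 58, 60, 71, 75, 77, 78, 83, 86, 89, 90, 92, 99,
   101, 102, 106, 108, 113, 114, 116, 120],
  [23, 27, 29, 30, 39, 43, 45, 46, 53, 54, 57, 58, 60, 71, 75, 77, 78, 83, 86, 89, 90, 92, 99,
   101, 102, 105, 108, 113, 114, 116, 120],
  [23, 27, 29, 30, 39, 43, 45, 46, 53, 54, 57, 58, 71, 75, 77, 78, 83, 86, 89, 92, 99, 101, 102,
   105, 106, 108, 113, 114, 116, 120],
  [23, 27, 29, 30, 39, 43, 45, 46, 53, 54, 57, 58, 71, 75, 77, 78, 83, 86, 89, 90, 92, 99, 101,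
   102, 105, 108, 113, 114, 116, 120],
  [23, 27, 29, 30, 39, 43, 45, 46, 53, 54, 57, 58, 71, 75, 77, 78, 83, 86, 89, 92, 99, 101, 105,
   106, 108, 113, 114, 116, 120],
  [23, 27, 29, 30, 39, 43, 45, 46, 53, 54, 57, 58, 71, 75, 77, 78, 83, 86, 89, 92, 99, 101, 106,
   108, 113, 114, 116, 120]]

/-- Values of the invariant. -/
def val3 : List ℕ := [457842, 385484, 438878, 438872, 438638, 420148, 419914, 401892, 384104]

theorem part3_ok : (part3.all fun B => OKp B) = true := by decide +kernel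

theorem part3_val : part3.map invm3 = val3 := by decide +kernel

end Pool.Agent.H59W
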