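import Pool.Agent.H59W.Base

set_option autoImplicit false

namespace Pool.Agent.H59W

open Pool.Agent.V1137.Welsh

/-- Base lists of simple paving matroids. -/
def part4 : List (List ℕ) := [
  [31, 47, 55, 59, 61, 62, 79, 87, 91, 93, 94, 103, 107, 109, 110, 115, 117, 118, 121, 122, 124],
  [47, 55, 59, 61, 62, 79, 87, 91, 93, 94, 103, 107, 109, 110, 115, 117, 118, 121, 122, 124],
  [79, 87, 91, 93, 94, 103, 107, 109, 110, 115, 117, 118, 121, 122, 124],
  [47, 55, 59, 61, 62, 79, 87, 91, 93, 94, 107, 109, 110, 115, 117, 118, 121, 122, 124],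
  [47, 55, 59, 61, 62, 79, 87, 91, 93, 94, 107, 109, 110, 115, 117, 118, 122, 124],
  [63, 95, 111, 119, 123, 125, 126],
  [95, 111, 119, 123, 125, 126],
  [127]]

/-- Values of the invariant. -/
def val4 : List ℕ := [1296351, 1248466, 1028841, 1201589, 1155714, 1750329, 1680015, 1835008]

theorem part4_ok : (part4.all fun B => OKp B) = true := by decide +kernel

theorem part4_val : part4.map invm3 = val4 := by decide +kernel

end Pool.Agent.H59W
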