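import Pool.Agent.H59W.P0
import Pool.Agent.H59W.P1
import Pool.Agent.H59W.P2
import Pool.Agent.H59W.P3
import Pool.Agent.H59W.P4

set_option autoImplicit false

namespace Pool.Agent.H59W

open Pool.Agent.V1137.Welsh

/-- The base lists of the fifty paving matroids. -/
def allP : List (List ℕ) := part0 ++ (part1 ++ (part2 ++ (part3 ++ part4)))

/-- The values of the invariant. -/
def vals3 : List ℕ := val0 ++ (val1 ++ (val2 ++ (val3 ++ val4)))

theorem allP_ok : (allP.all fun B => OKp B) = true := by
  simp only [allP, List.all_append, part0_ok, part1_ok, part2_ok, part3_ok, part4_ok,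
    Bool.and_self]

theorem allP_map : allP.map invm3 = vals3 := by
  simp only [allP, vals3, List.map_append, part0_val, part1_val, part2_val, part3_val, part4_val]

theorem vals3_nodup : vals3.Nodup := by decide +kernel

theorem allP_len : allP.length = 50 := by decide +kernel

end Pool.Agent.H59W
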