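import Pool.Graph.R_pool_sql_team_seeded_843ab51a.V1137.Welsh.Main

set_option autoImplicit false

/-! Checks on base lists of simple paving matroids with seven elements. -/

namespace Pool.Agent.H59W

open Pool.Agent.V1137.Welsh

/-- All checks for a simple paving matroid. -/
def OKp (B : List ℕ) : Bool :=
  exch B && (!B.isEmpty && (((List.range 128).all fun m => !decide (pop m ≤ 2) || isInd B m) &&
    ((List.range 128).all fun m => isInd B m ||
      B.all fun b => decide (b < 128) && decide (pop b ≤ pop m))))

/-- The invariant. -/
def invm3 (B : List ℕ) : ℕ :=
  ((List.range 7).map fun p =>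
    (((List.range 128).map fun m => if m.testBit p && isInd B m then 1 else 0).sum) ^ 3).sum

end Pool.Agent.H59W
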