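import Pool.Agent.H59W.Base

set_option autoImplicit false

namespace Pool.Agent.H59W

open Pool.Agent.V1137.Welsh

/-- Base lists of simple paving matroids. -/
def part0 : List (List ℕ) := [
  [3, 5, 6, 9, 10, 12, 17, 18, 20, 24, 33, 34, 36, 40, 48, 65, 66, 68, 72, 80, 96],
  [7, 11, 13, 14, 19, 21, 22, 25, 26, 28, 35, 37, 38, 41, 42, 44, 49, 50, 52, 56, 67, 69, 70, 73,
   74, 76, 81, 82, 84, 88, 97, 98, 100, 104, 112],
  [11, 13, 14, 19, 21, 22, 25, 26, 28, 35, 37, 38, 41, 42, 44, 49, 50, 52, 56, 67, 69, 70, 73,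
   74, 76, 81, 82, 84, 88, 97, 98, 100, 104, 112],
  [19, 21, 22, 25, 26, 28, 35, 37, 38, 41, 42, 44, 49, 50, 52, 56, 67, 69, 70, 73, 74, 76, 81,
   82, 84, 88, 97, 98, 100, 104, 112],
  [35, 37, 38, 41, 42, 44, 49, 50, 52, 56, 67, 69, 70, 73, 74, 76, 81, 82, 84, 88, 97, 98, 100,
   104, 112],
  [67, 69, 70, 73, 74, 76, 81, 82, 84, 88, 97, 98, 100, 104, 112],
  [11, 13, 14, 19, 21, 22, 26, 28, 35, 37, 38, 41, 42, 44, 49, 50, 52, 56, 67, 69, 70, 73, 74,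
   76, 81, 82, 84, 88, 97, 98, 100, 104, 112],
  [11, 13, 14, 19, 21, 22, 25, 26, 28, 35, 37, 38, 41, 42, 44, 49, 50, 52, 67, 69, 70, 73, 74,
   76, 81, 82, 84, 88, 97, 98, 100, 104, 112],
  [11, 13, 14, 19, 21, 22, 26, 28, 35, 37, 38, 42, 44, 50, 52, 67, 69, 70, 73, 74, 76, 81, 82,
   84, 88, 97, 98, 100, 104, 112],
  [11, 13, 14, 19, 21, 22, 25, 26, 28, 35, 37, 38, 41, 42, 44, 49, 50, 52, 67, 69, 70, 73, 74,
   76, 81, 82, 84, 97, 98, 100],
  [11, 13, 14, 19, 21, 22, 26, 28, 35, 37, 38, 42, 44, 50, 52, 67, 69, 70, 74, 76, 82, 84, 98, 100]]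

/-- Values of the invariant. -/
def val0 : List ℕ := [2401, 74536, 70375, 59380, 41776, 21016, 66340, 66214, 55579, 55219, 38281]

theorem part0_ok : (part0.all fun B => OKp B) = true := by decide +kernel

theorem part0_val : part0.map invm3 = val0 := by decide +kernel

end Pool.Agent.H59W
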